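import Pool.Agent.Lib.MP_242159_lc.YesE

namespace Pool.Agent.Results.MP_242159_lc.Complete

open Pool.Agent.Lib.MP_acf5a6_lc Pool.Agent.Lib.MP_242159_lc

/-- PLR is complete for the existential theory of the reals: ETR reduces to PLR and PLR reduces
to ETR by polynomial-time many-one reductions. -/
theorem result :
    N793a5b8e.ManyOneReducible ETR PLR ∧ N793a5b8e.ManyOneReducible PLR ETR :=
  ⟨etr_le_plr, plr_le_etr⟩

end Pool.Agent.Results.MP_242159_lc.Complete
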