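import Pool.Agent.Lib.MP_242159_lc.PlAll

namespace Pool.Agent.Results.MP_242159_lc.NoRotation

open Pool.Agent.Lib.MP_acf5a6_lc Pool.Agent.Lib.MP_242159_lc

/-- PL is complete for the existential theory of the reals: ETR reduces to PL and PL reduces
to ETR by polynomial-time many-one reductions. -/
theorem result :
    N793a5b8e.ManyOneReducible ETR PL ∧ N793a5b8e.ManyOneReducible PL ETR :=
  ⟨etr_le_pl, pl_le_etr⟩

end Pool.Agent.Results.MP_242159_lc.NoRotation
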